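import Pool.Agent.Helper25.HL.Goals4

/-!
Project HL (MP_03bcbb_an), packet RP1: representation of the component of the level `k + 1` by
finitely many rank-one operators with trace zero.
-/

set_option autoImplicit false

open Filter Topology Pool.Agent.Helper25.HL

noncomputable section

namespace Pool.Agent.Helper39.HL

section gen

theorem sqrt_sq_add {ι : Type} [Fintype ι] (z w : ι → ℂ) :
    Real.sqrt (sq (z + w)) ≤ Real.sqrt (sq z) + Real.sqrt (sq w) := by
  rw [sq_eq, sq_eq, sq_eq, Real.sqrt_sq (norm_nonneg _), Real.sqrt_sq (norm_nonneg _),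
    Real.sqrt_sq (norm_nonneg _)]
  exact norm_add_le _ _

theorem norm_sum_le {ι : Type} [Fintype ι] (c : ι → ℝ) (w : ι → ℂ) :
    ‖∑ t, (c t : ℂ) * w t‖ ≤ Real.sqrt (∑ t, c t ^ 2) * Real.sqrt (sq w) := by
  refine (_root_.norm_sum_le _ _).trans ?_
  have h1 : ∀ t, ‖(c t : ℂ) * w t‖ = |c t| * ‖w t‖ := fun t => by
    rw [norm_mul, Complex.norm_real, Real.norm_eq_abs]
  simp only [h1]
  refine (Real.sum_mul_le_sqrt_mul_sqrt _ _ _).trans ?_
  simp only [sq_abs]
  rfl

theorem norm_le_sqrt_sq {ι : Type} [Fintype ι] (w : ι → ℂ) (i : ι) :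
    ‖w i‖ ≤ Real.sqrt (sq w) := by
  apply Real.le_sqrt_of_sq_le
  exact Finset.single_le_sum (f := fun t => ‖w t‖ ^ 2) (fun t _ => by positivity)
    (Finset.mem_univ i)

theorem Rm_sq {p q : ℕ} (σ : Fin p → Fin q → Bool) (a : Fin p) (t : Fin q) :
    Rm σ a t ^ 2 = 1 / p := by
  unfold Rm
  have h : (0 : ℝ) ≤ p := Nat.cast_nonneg _
  rw [div_pow, Real.sq_sqrt h]
  split_ifs <;> norm_num

end gen

variable (P : ℕ → ℕ) (D : ∀ k, Lv (P k) (P (k + 1)))

/-- the coordinates of the level `k`, as a continuous map -/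
def prL (k : ℕ) : XX P D →L[ℂ] (Fin (P k) → ℂ) × (Fin (P (k + 1)) → ℂ) :=
  (LinearMap.toContinuousLinearMap (toPair (D k)).toLinearMap).comp
    (lp.evalCLM ℂ (fun k => LV (D k)) 2 k)

theorem prL_apply (k : ℕ) (x : XX P D) : prL P D k x = pr P D x k := rfl

/-- the combined coordinates, as functionals -/
def hL (j : ℕ) (i : Fin (P (j + 1))) : XX P D →L[ℂ] ℂ :=
  (((ContinuousLinearMap.proj (R := ℂ) (φ := fun _ : Fin (P (j + 1)) => ℂ) i).comp
    (ContinuousLinearMap.snd ℂ (Fin (P j) → ℂ) (Fin (P (j + 1)) → ℂ))).comp (prL P D j)) +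
  (((ContinuousLinearMap.proj (R := ℂ) (φ := fun _ : Fin (P (j + 1)) => ℂ) i).comp
    (ContinuousLinearMap.fst ℂ (Fin (P (j + 1)) → ℂ) (Fin (P (j + 1 + 1)) → ℂ))).comp
      (prL P D (j + 1)))

theorem hL_apply (j : ℕ) (i : Fin (P (j + 1))) (x : XX P D) :
    hL P D j i x = hh P D x (j + 1) i := rfl

theorem norm_x_le (x : XX P D) (k : ℕ) : ‖x k‖ ≤ ‖x‖ :=
  lp.norm_apply_le_norm (by norm_num) x k

theorem pr_bd (x : XX P D) (k : ℕ) :
    Real.sqrt (pq2 (pr P D x k)) ≤ 2 ^ (D k).J * ‖x‖ := by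
  rw [Real.sqrt_le_left (by positivity)]
  have h1 := pq2_le_lnm (D k).σ (D k).J (D k).r (pr P D x k)
  have h2 : lnm (D k).σ (D k).J (D k).r (pr P D x k) = ‖x k‖ := rfl
  rw [h2] at h1
  refine h1.trans ?_
  rw [mul_pow, ← pow_mul, mul_comm (D k).J 2, pow_mul]
  norm_num
  exact pow_le_pow_left₀ (norm_nonneg _) (norm_x_le P D x k) 2

theorem hh_bd (x : XX P D) (j : ℕ) :
    Real.sqrt (sq (hh P D x (j + 1))) ≤ (2 ^ (D j).J + 2 ^ (D (j + 1)).J) * ‖x‖ := by
  have h0 : hh P D x (j + 1) = (pr P D x j).2 + (pr P D x (j + 1)).1 := rfl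
  rw [h0, add_mul]
  refine (sqrt_sq_add _ _).trans (add_le_add ?_ ?_)
  · refine le_trans (Real.sqrt_le_sqrt ?_) (pr_bd P D x j)
    exact le_add_of_nonneg_left (sq_nn _)
  · refine le_trans (Real.sqrt_le_sqrt ?_) (pr_bd P D x (j + 1))
    exact le_add_of_nonneg_right (sq_nn _)

/-- the embedding of the level in terms of pairs -/
def EE (k : ℕ) : (Fin (P k) → ℂ) × (Fin (P (k + 1)) → ℂ) →ₗ[ℂ] XX P D :=
  (emb P D k).toLinearMap.comp (toPair (D k)).symm.toLinearMap

theorem EE_apply (k : ℕ) (z : (Fin (P k) → ℂ) × (Fin (P (k + 1)) → ℂ)) :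
    EE P D k z = emb P D k ((toPair (D k)).symm z) := rfl

theorem pr_EE_self (k : ℕ) (z : (Fin (P k) → ℂ) × (Fin (P (k + 1)) → ℂ)) :
    pr P D (EE P D k z) k = z := by
  have h : (EE P D k z) k = (toPair (D k)).symm z :=
    lp.single_apply_self (E := fun k => LV (D k)) 2 k _
  unfold pr
  rw [h]
  exact (toPair (D k)).apply_symm_apply z

theorem pr_EE_ne (k : ℕ) (z : (Fin (P k) → ℂ) × (Fin (P (k + 1)) → ℂ)) {j : ℕ} (hj : j ≠ k) :
    pr P D (EE P D k z) j = 0 := by
  have h : (EE P D k z) j = 0 := lp.single_apply_ne (E := fun k => LV (D k)) 2 k _ hj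
  unfold pr
  rw [h, map_zero]

theorem hh_EE_fst (k : ℕ) (z : (Fin (P (k + 1)) → ℂ) × (Fin (P (k + 1 + 1)) → ℂ)) :
    hh P D (EE P D (k + 1) z) (k + 1) = z.1 := by
  have h0 : hh P D (EE P D (k + 1) z) (k + 1) =
      (pr P D (EE P D (k + 1) z) k).2 + (pr P D (EE P D (k + 1) z) (k + 1)).1 := rfl
  rw [h0, pr_EE_self, pr_EE_ne P D (k + 1) z (by omega : k ≠ k + 1)]
  simp

theorem hh_EE_snd (k : ℕ) (z : (Fin (P k) → ℂ) × (Fin (P (k + 1)) → ℂ)) :
    hh P D (EE P D k z) (k + 1) = z.2 := by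
  have h0 : hh P D (EE P D k z) (k + 1) =
      (pr P D (EE P D k z) k).2 + (pr P D (EE P D k z) (k + 1)).1 := rfl
  rw [h0, pr_EE_self, pr_EE_ne P D k z (by omega : k + 1 ≠ k)]
  simp

theorem norm_EE (h5 : S_LP2) (k : ℕ) (z : (Fin (P k) → ℂ) × (Fin (P (k + 1)) → ℂ)) :
    ‖EE P D k z‖ = lnm (D k).σ (D k).J (D k).r z := by
  rw [EE_apply, (h5 P D 0).2.2, LV_norm_def]
  congr 1

theorem frep_of {ι : Type} [Fintype ι] (k : ℕ) (c : ℝ) (F : ι → (XX P D →L[ℂ] ℂ))
    (v : ι → XX P D) (h1 : ∀ x, ∑ m, F m x • v m = TT P D k x) (h2 : ∑ m, F m (v m) = 0)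
    (h3 : ∑ m, ‖F m‖ * ‖v m‖ ≤ c) : FRep P D k c := by
  let e := Fintype.equivFin ι
  refine ⟨Fintype.card ι, fun m => F (e.symm m), fun m => v (e.symm m), ?_, ?_, ?_⟩
  · intro x
    rw [← h1 x]
    exact e.symm.sum_comp (fun m => F m x • v m)
  · rw [← h2]
    exact e.symm.sum_comp (fun m => F m (v m))
  · refine le_trans (le_of_eq ?_) h3
    exact e.symm.sum_comp (fun m => ‖F m‖ * ‖v m‖)

theorem Gm_single {p q : ℕ} (σ : Fin p → Fin q → Bool) (t : Fin q) :
    Gm σ (Pi.single t 1) = (fun a => (Rm σ a t : ℂ), Pi.single t 1) := by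
  refine Prod.ext ?_ rfl
  funext a
  show ∑ t', (Rm σ a t' : ℂ) * (Pi.single t 1 : Fin q → ℂ) t' = _
  rw [Finset.sum_eq_single t]
  · simp
  · intro b _ hb
    rw [Pi.single_eq_of_ne hb, mul_zero]
  · intro h
    exact absurd (Finset.mem_univ t) h

theorem rp1 (h1 : S_DF) (h2 : S_FN) (h3 : S_LG) (h4 : S_LB) (h5 : S_LP2) : S_RP1 := by
  intro P D k hT
  classical
  have hp2 : 2 ≤ P (k + 1) := hT.hP k
  have hq2 : 2 ≤ P (k + 1 + 1) := hT.hP (k + 1)
  obtain ⟨y, y1, y2, y3⟩ := h1 (P (k + 1)) (P (k + 1 + 1)) (D (k + 1)).σ hp2 (by omega) hT.h2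
  set σ := (D (k + 1)).σ with hσ
  have hp : (0 : ℝ) < (P (k + 1) : ℝ) := by
    have : (2 : ℝ) ≤ (P (k + 1) : ℝ) := by exact_mod_cast hp2
    linarith
  have hq : (0 : ℝ) < (P (k + 1 + 1) : ℝ) := by
    have : (2 : ℝ) ≤ (P (k + 1 + 1) : ℝ) := by exact_mod_cast hq2
    linarith
  set p : ℝ := (P (k + 1) : ℝ) with hpdef
  set q : ℝ := (P (k + 1 + 1) : ℝ) with hqdef
  set A : ℝ := 2 ^ (D k).J with hA
  set B : ℝ := 2 ^ (D (k + 1)).J with hB
  set C : ℝ := 2 ^ (D (k + 1 + 1)).J with hC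
  have hA0 : 0 < A := by positivity
  have hB0 : 0 < B := by positivity
  have hC0 : 0 < C := by positivity
  let cq : ℂ := ((1 / q : ℝ) : ℂ)
  have hcq : ‖cq‖ = 1 / q := by
    show ‖((1 / q : ℝ) : ℂ)‖ = 1 / q
    rw [Complex.norm_real, Real.norm_of_nonneg (by positivity)]
  let FA : Fin (P (k + 1 + 1)) → (XX P D →L[ℂ] ℂ) := fun t =>
    cq • (∑ a, (y t a : ℂ) • hL P D k a - hL P D (k + 1) t)
  let FB : Fin (P (k + 1)) → (XX P D →L[ℂ] ℂ) := fun s =>
    cq • ∑ t, (Rm σ s t : ℂ) • hL P D (k + 1) t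
  let FC : Fin (P (k + 1)) → (XX P D →L[ℂ] ℂ) := fun s => hL P D k s
  let vA : Fin (P (k + 1 + 1)) → XX P D := fun t => EE P D (k + 1) (Gm σ (Pi.single t 1))
  let vB : Fin (P (k + 1)) → XX P D := fun s => EE P D (k + 1) (Pi.single s 1, 0)
  let vC : Fin (P (k + 1)) → XX P D := fun s =>
    EE P D (k + 1) (0, fun t => -cq * (y t s : ℂ))
  have FA_apply : ∀ t x, FA t x = cq * (∑ a, (y t a : ℂ) * hh P D x (k + 1) a -
      hh P D x (k + 1 + 1) t) := by
    intro t x
    simp only [FA, smul_apply, sub_apply,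
      sum_apply, hL_apply, smul_eq_mul]
  have FB_apply : ∀ s x, FB s x = cq * ∑ t, (Rm σ s t : ℂ) * hh P D x (k + 1 + 1) t := by
    intro s x
    simp only [FB, smul_apply,
      sum_apply, hL_apply, smul_eq_mul]
  have FC_apply : ∀ s x, FC s x = hh P D x (k + 1) s := fun s x => rfl
  -- the norms of the functionals
  have nFA : ∀ t, ‖FA t‖ ≤ 20 / q := by
    intro t
    refine ContinuousLinearMap.opNorm_le_bound _ (by positivity) fun x => ?_
    rw [FA_apply, norm_mul, hcq]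
    have h6 := h2 P D k hT (y t) t (y2 t) x
    calc 1 / q * ‖∑ a, (y t a : ℂ) * hh P D x (k + 1) a - hh P D x (k + 1 + 1) t‖
        ≤ 1 / q * (20 * ‖x‖) := mul_le_mul_of_nonneg_left h6 (by positivity)
      _ = 20 / q * ‖x‖ := by ring
  have nFB : ∀ s, ‖FB s‖ ≤ 1 / q * (Real.sqrt (q / p) * (B + C)) := by
    intro s
    refine ContinuousLinearMap.opNorm_le_bound _ (by positivity) fun x => ?_
    rw [FB_apply, norm_mul, hcq, mul_assoc]
    refine mul_le_mul_of_nonneg_left ?_ (by positivity)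
    have h6 := norm_sum_le (fun t => Rm σ s t) (hh P D x (k + 1 + 1))
    have h7 : ∑ t, Rm σ s t ^ 2 = q / p := by
      simp only [Rm_sq, Finset.sum_const, Finset.card_univ, Fintype.card_fin, nsmul_eq_mul]
      rw [mul_one_div]
    rw [h7] at h6
    have h8 := hh_bd P D x (k + 1)
    calc ‖∑ t, (Rm σ s t : ℂ) * hh P D x (k + 1 + 1) t‖
        ≤ Real.sqrt (q / p) * Real.sqrt (sq (hh P D x (k + 1 + 1))) := h6
      _ ≤ Real.sqrt (q / p) * ((B + C) * ‖x‖) :=
        mul_le_mul_of_nonneg_left h8 (Real.sqrt_nonneg _)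
      _ = Real.sqrt (q / p) * (B + C) * ‖x‖ := by ring
  have nFC : ∀ s, ‖FC s‖ ≤ A + B := by
    intro s
    refine ContinuousLinearMap.opNorm_le_bound _ (by positivity) fun x => ?_
    rw [FC_apply]
    exact (norm_le_sqrt_sq _ s).trans (hh_bd P D x k)
  -- the norms of the vectors
  have nvA : ∀ t, ‖vA t‖ ≤ 2 / B := by
    intro t
    have h6 := h3 (P (k + 1)) (P (k + 1 + 1)) σ (D (k + 1)).J (D (k + 1)).r (by omega)
      (D (k + 1)).hr hT.h8 (Pi.single t 1)
    have h7 : l1 (Pi.single t 1 : Fin (P (k + 1 + 1)) → ℂ) = 1 := by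
      unfold l1
      rw [Finset.sum_eq_single t]
      · simp
      · intro b _ hb
        rw [Pi.single_eq_of_ne hb, norm_zero]
      · intro h
        exact absurd (Finset.mem_univ t) h
    rw [h7, mul_one] at h6
    show ‖EE P D (k + 1) (Gm σ (Pi.single t 1))‖ ≤ _
    rw [norm_EE P D h5]
    exact h6
  have nE : ∀ z : (Fin (P (k + 1)) → ℂ) × (Fin (P (k + 1 + 1)) → ℂ), ∀ b : ℝ, 0 ≤ b →
      4 / 3 * pq2 z ≤ b ^ 2 → ‖EE P D (k + 1) z‖ ≤ b := by
    intro z b hb hz
    rw [norm_EE P D h5]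
    refine le_of_sq_le_sq ?_ hb
    exact (h4 _ _ _ _ _ (D (k + 1)).hr z).trans hz
  have nvB : ∀ s, ‖vB s‖ ≤ 2 := by
    intro s
    refine nE _ 2 (by norm_num) ?_
    have h6 : pq2 ((Pi.single s 1, 0) :
        (Fin (P (k + 1)) → ℂ) × (Fin (P (k + 1 + 1)) → ℂ)) = 1 := by
      unfold pq2 Pool.Agent.Helper25.HL.sq
      simp only [Pi.zero_apply, norm_zero]
      rw [Finset.sum_eq_single s]
      · simp
      · intro b _ hb
        rw [Pi.single_eq_of_ne hb]
        simp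
      · intro h
        exact absurd (Finset.mem_univ s) h
    rw [h6]
    norm_num
  have hsq : Real.sqrt (q / p) ^ 2 = q / p := Real.sq_sqrt (by positivity)
  have nvC : ∀ s, ‖vC s‖ ≤ 4 * (1 / q * Real.sqrt (q / p)) := by
    intro s
    refine nE _ _ (by positivity) ?_
    have h6 : pq2 ((0, fun t => -cq * (y t s : ℂ)) :
        (Fin (P (k + 1)) → ℂ) × (Fin (P (k + 1 + 1)) → ℂ)) = (1 / q) ^ 2 * ∑ t, (y t s) ^ 2 := by
      unfold pq2 Pool.Agent.Helper25.HL.sq
      simp only [Pi.zero_apply, norm_zero]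
      rw [Finset.mul_sum]
      have h7 : ∑ t : Fin (P (k + 1)), (0 : ℝ) ^ 2 = 0 := by simp
      rw [h7, zero_add]
      refine Finset.sum_congr rfl fun t _ => ?_
      rw [norm_mul, norm_neg, hcq, Complex.norm_real, Real.norm_eq_abs, mul_pow, sq_abs]
    rw [h6, mul_pow, mul_pow, hsq]
    have h8 := y3 s
    have h9 : (1 / q) ^ 2 * ∑ t, (y t s) ^ 2 ≤ (1 / q) ^ 2 * (4 * (q / p)) :=
      mul_le_mul_of_nonneg_left h8 (by positivity)
    have h10 : 0 ≤ (1 / q) ^ 2 * (q / p) := by positivity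
    nlinarith
  -- the representation
  refine frep_of P D (ι := Fin (P (k + 1 + 1)) ⊕ (Fin (P (k + 1)) ⊕ Fin (P (k + 1)))) (k + 1) _
    (Sum.elim FA (Sum.elim FB FC)) (Sum.elim vA (Sum.elim vB vC)) ?_ ?_ ?_
  · intro x
    simp only [Fintype.sum_sum_type, Sum.elim_inl, Sum.elim_inr]
    have hTT : TT P D (k + 1) x = EE P D (k + 1)
        (((1 / p : ℝ) : ℂ) • hh P D x (k + 1), (-cq) • hh P D x (k + 1 + 1)) := rfl
    have e1 : ∑ t, FA t x • vA t = EE P D (k + 1) (∑ t, FA t x • Gm σ (Pi.single t 1)) := by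
      rw [map_sum]
      refine Finset.sum_congr rfl fun t _ => ?_
      rw [map_smul]
    have e2 : ∑ s, FB s x • vB s = EE P D (k + 1) (∑ s, FB s x • (Pi.single s 1, 0)) := by
      rw [map_sum]
      refine Finset.sum_congr rfl fun t _ => ?_
      rw [map_smul]
    have e3 : ∑ s, FC s x • vC s = EE P D (k + 1)
        (∑ s, FC s x • ((0, fun t => -cq * (y t s : ℂ)) :
          (Fin (P (k + 1)) → ℂ) × (Fin (P (k + 1 + 1)) → ℂ))) := by
      rw [map_sum]
      refine Finset.sum_congr rfl fun t _ => ?_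
      rw [map_smul]
    rw [hTT, e1, e2, e3, ← map_add, ← map_add]
    congr 1
    refine Prod.ext ?_ ?_
    · funext a
      simp only [Prod.fst_add, Prod.fst_sum, Prod.smul_fst, Pi.add_apply, Finset.sum_apply,
        Pi.smul_apply, Gm_single, smul_eq_mul, Pi.zero_apply, mul_zero, Finset.sum_const_zero,
        add_zero]
      have f1 : ∑ s, FB s x * (Pi.single s 1 : Fin (P (k + 1)) → ℂ) a = FB a x := by
        rw [Finset.sum_eq_single a]
        · simp
        · intro b _ hb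
          rw [Pi.single_eq_of_ne (Ne.symm hb), mul_zero]
        · intro h
          exact absurd (Finset.mem_univ a) h
      rw [f1, FB_apply]
      simp only [FA_apply]
      have f2 : ∑ t, cq * (∑ b, (y t b : ℂ) * hh P D x (k + 1) b -
          hh P D x (k + 1 + 1) t) * (Rm σ a t : ℂ) =
          cq * ∑ b, hh P D x (k + 1) b * ∑ t, (Rm σ a t : ℂ) * (y t b : ℂ) -
          cq * ∑ t, (Rm σ a t : ℂ) * hh P D x (k + 1 + 1) t := by
        rw [← mul_sub, ← Finset.sum_congr rfl fun t _ => (mul_assoc cq _ _).symm,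
          ← Finset.mul_sum]
        congr 1
        simp only [Finset.mul_sum]
        rw [Finset.sum_comm, ← Finset.sum_sub_distrib]
        refine Finset.sum_congr rfl fun t _ => ?_
        rw [sub_mul, Finset.sum_mul]
        congr 1
        · refine Finset.sum_congr rfl fun b _ => ?_
          ring
        · ring
      rw [f2, sub_add_cancel]
      have f3 : ∀ b, ∑ t, (Rm σ a t : ℂ) * (y t b : ℂ) =
          if b = a then ((q / p : ℝ) : ℂ) else 0 := by
        intro b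
        have f4 := y1 b a
        have f5 : (∑ t, (Rm σ a t : ℂ) * (y t b : ℂ)) =
            ((∑ t, Rm σ a t * y t b : ℝ) : ℂ) := by push_cast; rfl
        rw [f5, f4]
        split_ifs <;> simp
      simp only [f3, mul_ite, mul_zero, Finset.sum_ite_eq', Finset.mem_univ, if_true]
      have f6 : cq * (hh P D x (k + 1) a * ((q / p : ℝ) : ℂ)) =
          ((1 / q * (q / p) : ℝ) : ℂ) * hh P D x (k + 1) a := by
        push_cast
        show ((1 / q : ℝ) : ℂ) * _ = _
        push_cast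
        ring
      rw [f6]
      congr 2
      field_simp
    · funext t
      simp only [Prod.snd_add, Prod.snd_sum, Prod.smul_snd, Pi.add_apply, Finset.sum_apply,
        Pi.smul_apply, Gm_single, smul_eq_mul, Pi.zero_apply, mul_zero, Finset.sum_const_zero,
        add_zero]
      have f1 : ∑ s, FA s x * (Pi.single s 1 : Fin (P (k + 1 + 1)) → ℂ) t = FA t x := by
        rw [Finset.sum_eq_single t]
        · simp
        · intro b _ hb
          rw [Pi.single_eq_of_ne (Ne.symm hb), mul_zero]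
        · intro h
          exact absurd (Finset.mem_univ t) h
      rw [f1, FA_apply]
      simp only [FC_apply]
      have f2 : ∑ s, hh P D x (k + 1) s * (-cq * (y t s : ℂ)) =
          -cq * ∑ s, (y t s : ℂ) * hh P D x (k + 1) s := by
        rw [Finset.mul_sum]
        refine Finset.sum_congr rfl fun s _ => ?_
        ring
      rw [f2]
      ring
  · simp only [Fintype.sum_sum_type, Sum.elim_inl, Sum.elim_inr]
    have g1 : ∀ t, FA t (vA t) = cq * (∑ a, (y t a : ℂ) * (Rm σ a t : ℂ) - 1) := by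
      intro t
      rw [FA_apply]
      show cq * (∑ a, (y t a : ℂ) * hh P D (EE P D (k + 1) (Gm σ (Pi.single t 1))) (k + 1) a -
        hh P D (EE P D (k + 1) (Gm σ (Pi.single t 1))) (k + 1 + 1) t) = _
      rw [hh_EE_fst, hh_EE_snd, Gm_single]
      simp
    have g2 : ∀ s, FB s (vB s) = 0 := by
      intro s
      rw [FB_apply]
      show cq * ∑ t, (Rm σ s t : ℂ) * hh P D (EE P D (k + 1) (Pi.single s 1, 0)) (k + 1 + 1) t = _
      rw [hh_EE_snd]
      simp
    have g3 : ∀ s, FC s (vC s) = 0 := by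
      intro s
      rw [FC_apply]
      show hh P D (EE P D (k + 1) (0, fun t => -cq * (y t s : ℂ))) (k + 1) s = _
      rw [hh_EE_fst]
      rfl
    simp only [g1, g2, g3, Finset.sum_const_zero, add_zero]
    rw [← Finset.mul_sum, Finset.sum_sub_distrib, Finset.sum_comm]
    have g4 : ∀ a, ∑ t, (y t a : ℂ) * (Rm σ a t : ℂ) = ((q / p : ℝ) : ℂ) := by
      intro a
      have f4 := y1 a a
      rw [if_pos rfl] at f4
      rw [← f4]
      push_cast
      refine Finset.sum_congr rfl fun t _ => ?_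
      ring
    simp only [g4, Finset.sum_const, Finset.card_univ, Fintype.card_fin, nsmul_eq_mul, mul_one]
    have g5 : ((P (k + 1) : ℕ) : ℂ) * ((q / p : ℝ) : ℂ) = ((P (k + 1 + 1) : ℕ) : ℂ) := by
      have g6 : ((P (k + 1) : ℕ) : ℝ) * (q / p) = ((P (k + 1 + 1) : ℕ) : ℝ) := by
        show p * (q / p) = q
        field_simp
      have g7 := congrArg (fun r : ℝ => (r : ℂ)) g6
      simpa using g7
    rw [g5, sub_self, mul_zero]
  · simp only [Fintype.sum_sum_type, Sum.elim_inl, Sum.elim_inr]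
    have r0 : Real.sqrt (p / q) * Real.sqrt (p / q) = p / q := Real.mul_self_sqrt (by positivity)
    have r1 : Real.sqrt (q / p) = (Real.sqrt (p / q))⁻¹ := by
      rw [← Real.sqrt_inv, inv_div]
    have r2 : 0 < Real.sqrt (p / q) := Real.sqrt_pos.2 (by positivity)
    have r3 : p * (1 / q * Real.sqrt (q / p)) = Real.sqrt (p / q) := by
      rw [r1]
      calc p * (1 / q * (Real.sqrt (p / q))⁻¹) = (p / q) * (Real.sqrt (p / q))⁻¹ := by ring
        _ = (Real.sqrt (p / q) * Real.sqrt (p / q)) * (Real.sqrt (p / q))⁻¹ := by rw [r0]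
        _ = Real.sqrt (p / q) := by field_simp
    have c1 : ∑ t, ‖FA t‖ * ‖vA t‖ ≤ 40 / B := by
      calc ∑ t, ‖FA t‖ * ‖vA t‖ ≤ ∑ _t : Fin (P (k + 1 + 1)), 20 / q * (2 / B) :=
            Finset.sum_le_sum fun t _ =>
              mul_le_mul (nFA t) (nvA t) (norm_nonneg _) (by positivity)
        _ = q * (20 / q * (2 / B)) := by
            rw [Finset.sum_const, Finset.card_univ, Fintype.card_fin, nsmul_eq_mul]
        _ = 40 / B := by field_simp; norm_num
    have c2 : ∑ s, ‖FB s‖ * ‖vB s‖ ≤ 2 * (B + C) * Real.sqrt (p / q) := by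
      calc ∑ s, ‖FB s‖ * ‖vB s‖
          ≤ ∑ _s : Fin (P (k + 1)), 1 / q * (Real.sqrt (q / p) * (B + C)) * 2 :=
            Finset.sum_le_sum fun s _ =>
              mul_le_mul (nFB s) (nvB s) (norm_nonneg _) (by positivity)
        _ = p * (1 / q * (Real.sqrt (q / p) * (B + C)) * 2) := by
            rw [Finset.sum_const, Finset.card_univ, Fintype.card_fin, nsmul_eq_mul]
        _ = 2 * (B + C) * (p * (1 / q * Real.sqrt (q / p))) := by ring
        _ = 2 * (B + C) * Real.sqrt (p / q) := by rw [r3]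
    have c3 : ∑ s, ‖FC s‖ * ‖vC s‖ ≤ 4 * (A + B) * Real.sqrt (p / q) := by
      calc ∑ s, ‖FC s‖ * ‖vC s‖
          ≤ ∑ _s : Fin (P (k + 1)), (A + B) * (4 * (1 / q * Real.sqrt (q / p))) :=
            Finset.sum_le_sum fun s _ =>
              mul_le_mul (nFC s) (nvC s) (norm_nonneg _) (by positivity)
        _ = p * ((A + B) * (4 * (1 / q * Real.sqrt (q / p)))) := by
            rw [Finset.sum_const, Finset.card_univ, Fintype.card_fin, nsmul_eq_mul]
        _ = 4 * (A + B) * (p * (1 / q * Real.sqrt (q / p))) := by ring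
        _ = 4 * (A + B) * Real.sqrt (p / q) := by rw [r3]
    have c4 : 0 ≤ A * Real.sqrt (p / q) := by positivity
    have c5 : 0 ≤ B * Real.sqrt (p / q) := by positivity
    have c6 : 0 ≤ C * Real.sqrt (p / q) := by positivity
    have c7 : ∑ t, ‖FA t‖ * ‖vA t‖ + (∑ s, ‖FB s‖ * ‖vB s‖ + ∑ s, ‖FC s‖ * ‖vC s‖) ≤
        40 / B + 8 * (A + B + C) * Real.sqrt (p / q) := by nlinarith
    exact c7

end Pool.Agent.Helper39.HL
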