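import Pool.Agent.Helper25.HL.Goals2

/-!
Project HL (MP_03bcbb_an), packet MG: exponential moments of quadratic forms of signs, by Gaussian
linearisation.
-/

set_option autoImplicit false

open MeasureTheory ProbabilityTheory Pool.Agent.Helper25.HL

noncomputable section

namespace Pool.Agent.Helper39.HL

/-- the standard Gaussian measure -/
abbrev gm : Measure ℝ := gaussianReal 0 1

theorem exp_gauss (t : ℝ) : ∫ g, Real.exp (t * g) ∂gm = Real.exp (t ^ 2 / 2) := by
  have h := congrFun (mgf_fun_id_gaussianReal (μ := 0) (v := 1)) t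
  unfold mgf at h
  rw [h]
  simp

theorem exp_sq_gauss : ∫ g, Real.exp (g ^ 2 / 4) ∂gm = Real.sqrt 2 := by
  rw [integral_gaussianReal_eq_integral_smul one_ne_zero]
  have h1 : ∀ x : ℝ, gaussianPDFReal 0 1 x • Real.exp (x ^ 2 / 4) =
      (Real.sqrt (2 * Real.pi))⁻¹ * Real.exp (-(1 / 4) * x ^ 2) := by
    intro x
    unfold gaussianPDFReal
    rw [smul_eq_mul, mul_assoc, ← Real.exp_add]
    congr 2
    · simp
    · simp only [NNReal.coe_one]
      ring
  simp only [h1]
  rw [integral_const_mul, integral_gaussian, ← Real.sqrt_inv, ← Real.sqrt_mul (by positivity)]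
  congr 1
  have := Real.pi_pos
  field_simp
  norm_num

theorem integrable_exp_sq : Integrable (fun g : ℝ => Real.exp (g ^ 2 / 4)) gm := by
  apply Integrable.of_integral_ne_zero
  rw [exp_sq_gauss]
  positivity

theorem sum_signs {ι : Type} [Fintype ι] [DecidableEq ι] (y : ι → ℝ) :
    ∑ ω : ι → Bool, Real.exp (∑ x, sg (ω x) * y x) ≤
      (2 : ℝ) ^ (Fintype.card ι) * Real.exp (∑ x, (y x) ^ 2 / 2) := by
  have h1 : ∑ ω : ι → Bool, Real.exp (∑ x, sg (ω x) * y x) =
      ∏ x, ∑ b : Bool, Real.exp (sg b * y x) := by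
    rw [Finset.prod_univ_sum, Fintype.piFinset_univ]
    exact Finset.sum_congr rfl fun ω _ => Real.exp_sum _ _
  rw [h1, Real.exp_sum, ← Finset.card_univ, ← Finset.prod_const, ← Finset.prod_mul_distrib]
  refine Finset.prod_le_prod (fun x _ => Finset.sum_nonneg fun b _ => (Real.exp_pos _).le) ?_
  intro x _
  have h2 := Real.cosh_le_exp_half_sq (y x)
  rw [Real.cosh_eq] at h2
  rw [Fintype.sum_bool]
  simp only [sg, if_true, Bool.false_eq_true, if_false]
  rw [one_mul, neg_one_mul]
  linarith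

theorem mg : S_MG := by
  intro ι κ _ _ _ B s hs hB
  classical
  set r : ℝ := Real.sqrt (2 * s) with hr
  have hr0 : 0 < r := Real.sqrt_pos.2 (by positivity)
  have hr2 : r ^ 2 = 2 * s := Real.sq_sqrt (by positivity)
  let c : (ι → Bool) → κ → ℝ := fun ω k => ∑ x, B k x * sg (ω x)
  have hint : ∀ ω, Integrable (fun g : κ → ℝ => ∏ k, Real.exp (c ω k / r * g k))
      (Measure.pi fun _ : κ => gm) := fun ω =>
    Integrable.fintype_prod (f := fun k g => Real.exp (c ω k / r * g))
      (fun k => integrable_exp_mul_gaussianReal _)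
  have h1 : ∀ ω, Real.exp ((∑ k, (∑ x, B k x * sg (ω x)) ^ 2) / (4 * s)) =
      ∫ g : κ → ℝ, ∏ k, Real.exp (c ω k / r * g k) ∂(Measure.pi fun _ : κ => gm) := by
    intro ω
    rw [integral_fintype_prod_eq_prod (fun k (g : ℝ) => Real.exp (c ω k / r * g))]
    simp only [exp_gauss]
    rw [← Real.exp_sum]
    congr 1
    rw [Finset.sum_div]
    refine Finset.sum_congr rfl fun k _ => ?_
    rw [div_pow, hr2]
    show _ = (∑ x, B k x * sg (ω x)) ^ 2 / (2 * s) / 2
    rw [div_div]
    ring_nf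
  have h2 : ∀ g : κ → ℝ, ∑ ω, ∏ k, Real.exp (c ω k / r * g k) ≤
      (2 : ℝ) ^ (Fintype.card ι) * ∏ k, Real.exp ((g k) ^ 2 / 4) := by
    intro g
    have h3 : ∀ ω, ∏ k, Real.exp (c ω k / r * g k) =
        Real.exp (∑ x, sg (ω x) * ((∑ k, g k * B k x) / r)) := by
      intro ω
      rw [← Real.exp_sum]
      congr 1
      have h4 : ∀ k, c ω k / r * g k = ∑ x, sg (ω x) * (g k * B k x / r) := by
        intro k
        show (∑ x, B k x * sg (ω x)) / r * g k = _
        rw [Finset.sum_div, Finset.sum_mul]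
        refine Finset.sum_congr rfl fun x _ => ?_
        ring
      simp only [h4]
      rw [Finset.sum_comm]
      refine Finset.sum_congr rfl fun x _ => ?_
      rw [← Finset.mul_sum, Finset.sum_div]
    simp only [h3]
    refine (sum_signs _).trans ?_
    rw [← Real.exp_sum]
    refine mul_le_mul_of_nonneg_left (Real.exp_le_exp.2 ?_) (by positivity)
    have h5 : ∑ x, ((∑ k, g k * B k x) / r) ^ 2 / 2 =
        (∑ x, (∑ k, g k * B k x) ^ 2) / (4 * s) := by
      rw [Finset.sum_div]
      refine Finset.sum_congr rfl fun x _ => ?_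
      rw [div_pow, hr2, div_div]
      ring_nf
    rw [h5, div_le_iff₀ (by positivity)]
    calc ∑ x, (∑ k, g k * B k x) ^ 2 ≤ s * ∑ k, (g k) ^ 2 := hB g
      _ = (∑ k, (g k) ^ 2 / 4) * (4 * s) := by
        rw [← Finset.sum_div]
        ring
  have h6 : Integrable (fun g : κ → ℝ => ∏ k, Real.exp ((g k) ^ 2 / 4))
      (Measure.pi fun _ : κ => gm) :=
    Integrable.fintype_prod (f := fun (_ : κ) g => Real.exp (g ^ 2 / 4))
      (fun _ => integrable_exp_sq)
  calc ∑ ω : ι → Bool, Real.exp ((∑ k, (∑ x, B k x * sg (ω x)) ^ 2) / (4 * s))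
      = ∑ ω : ι → Bool, ∫ g : κ → ℝ, ∏ k, Real.exp (c ω k / r * g k)
          ∂(Measure.pi fun _ : κ => gm) := Finset.sum_congr rfl fun ω _ => h1 ω
    _ = ∫ g : κ → ℝ, ∑ ω : ι → Bool, ∏ k, Real.exp (c ω k / r * g k)
          ∂(Measure.pi fun _ : κ => gm) := (integral_finsetSum _ fun ω _ => hint ω).symm
    _ ≤ ∫ g : κ → ℝ, (2 : ℝ) ^ (Fintype.card ι) * ∏ k, Real.exp ((g k) ^ 2 / 4)
          ∂(Measure.pi fun _ : κ => gm) :=
        integral_mono (integrable_finsetSum _ fun ω _ => hint ω) (h6.const_mul _) h2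
    _ = (2 : ℝ) ^ (Fintype.card ι) * (Real.sqrt 2) ^ (Fintype.card κ) := by
        rw [integral_const_mul,
          integral_fintype_prod_eq_prod (fun (_ : κ) (g : ℝ) => Real.exp (g ^ 2 / 4))]
        simp only [exp_sq_gauss]
        rw [Finset.prod_const, Finset.card_univ]
    _ ≤ (2 : ℝ) ^ (Fintype.card ι) * (2 : ℝ) ^ (Fintype.card κ) := by
        refine mul_le_mul_of_nonneg_left ?_ (by positivity)
        refine pow_le_pow_left₀ (Real.sqrt_nonneg _) ?_ _
        rw [Real.sqrt_le_left (by norm_num)]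
        norm_num

end Pool.Agent.Helper39.HL
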